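import Pool.Agent.H71.PX.Targets

/-!
# Row EB of pfc_modules: a block of existential quantifiers
-/

set_option autoImplicit false

open Pool.Agent.H71.PX

namespace Pool.Agent.H52.PX

theorem pf_EB : T_EB := by
  intro α R φ k b v
  induction b generalizing k v with
  | zero =>
    constructor
    · intro h
      exact ⟨v, fun _ _ => rfl, h⟩
    · rintro ⟨c, hc, h⟩
      have e : c = v := funext fun i => hc i (by omega)
      rw [e] at h
      exact h
  | succ b ih =>
    constructor
    · rintro ⟨a, ha⟩
      obtain ⟨c, hc, h⟩ := (ih (k + 1) (Function.update v k a)).1 ha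
      refine ⟨c, fun i hi => ?_, h⟩
      rw [hc i (by omega), Function.update_of_ne (by omega)]
    · rintro ⟨c, hc, h⟩
      refine ⟨c k, (ih (k + 1) (Function.update v k (c k))).2 ⟨c, fun i hi => ?_, h⟩⟩
      by_cases hik : i = k
      · rw [hik, Function.update_self]
      · rw [Function.update_of_ne hik, hc i (by omega)]

end Pool.Agent.H52.PX
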