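import Pool.Agent.H71.PX.Targets

/-!
# Row HE of pfc_modules: tile systems and the prefix with two universal quantifiers
-/

set_option autoImplicit false

open Pool.Agent.H71.PX Pool.Agent.H8.PL

namespace Pool.Agent.H52.PX

theorem pf_HE (fo : T_FO) (mo : T_MO) (qu : T_QU) (qt : T_QT) (en : T_EN) (tp : T_TP) : T_HE := by
  intro Q _ U Hh Vv
  obtain ⟨e, he⟩ := exists_injective_nat Q
  obtain ⟨φ, hV, hB, hφ⟩ := (qu Q e U Hh Vv).and (qt Q e Hh Vv)
  refine ⟨φ, hV, hB, fun M => ?_⟩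
  have key : ∀ (α : Type) (R : ℕ → List α → Prop) (v : ℕ → α),
      Pre R φ [true, true, false] 0 v ↔ ∀ x y, ∃ z, Un (dec e R) U Hh Vv x y ∧
        Tk (dec e R) Hh Vv x y z := by
    intro α R v
    change (∀ x y, ∃ z, φ.Sat R (Function.update (Function.update (Function.update v 0 x) (0 + 1) y)
      (0 + 1 + 1) z)) ↔ _
    refine forall_congr' fun x => forall_congr' fun y => exists_congr fun z => ?_
    rw [hφ]
    simp [Function.update]
  constructor
  · rintro ⟨hM, R, hR⟩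
    have hne : Nonempty (Fin M) := ⟨⟨0, hM⟩⟩
    have hOk : Ok (dec e R) U Hh Vv := (key (Fin M) R fun _ => ⟨0, hM⟩).1 (hR _)
    obtain ⟨n, hn, hc, t, ht⟩ := fo (Fin M) Q (dec e R) U Hh Vv hne inferInstance hOk
    refine ⟨n, hn, ?_, t, ht⟩
    rw [← hc, Nat.card_eq_fintype_card, Fintype.card_fin]
  · rintro ⟨n, hn, rfl, t, ht⟩
    refine ⟨by positivity, ?_⟩
    have hOk := mo Q U Hh Vv n t ht
    have f : Fin n × Fin n ≃ Fin (n ^ 2) := Fintype.equivOfCardEq (by
      rw [Fintype.card_prod, Fintype.card_fin, Fintype.card_fin, sq])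
    obtain ⟨m', hm'⟩ := tp (Fin n × Fin n) (Fin (n ^ 2)) Q f (Mo n t) U Hh Vv hOk
    obtain ⟨R, hR⟩ := (en (Fin (n ^ 2)) Q e he).1 m'
    refine ⟨R, fun v => (key _ R v).2 ?_⟩
    rw [hR]
    exact hm'

end Pool.Agent.H52.PX
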