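import Pool.Agent.H71.PX.Targets

/-!
# Row SE of pfc_modules: the label `E`
-/

set_option autoImplicit false

open Pool.Agent.H71.PX

namespace Pool.Agent.H52.PX

theorem pf_SE (ns : T_NS) (rc : T_RC) : T_SE := by
  intro α Q m U Hh Vv n v hOk hIH z u hz hu he hr
  obtain ⟨h1, h2⟩ := rc α Q m U Hh Vv n v hOk hIH z hz.1
  obtain ⟨j, hj, hp⟩ := h2 hr
  by_contra hc
  refine ns α Q m U Hh Vv n v hOk hIH j hj ⟨z, u, m.R true (n v) u, hz, h1 false hr, hp, ?_, ?_⟩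
  · exact Or.inr (Or.inr (Or.inl ⟨hu, he, Iff.rfl⟩))
  · exact fun h => hc (h.1 hr)

end Pool.Agent.H52.PX
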